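import Pool.Agent.H27.L1.H34.GM.Targets2

/-!
# Row BMP of the board `gmf_modules`: the bump functions
-/

set_option autoImplicit false

namespace Pool.Agent.H27.L1.H86.GMF

open MeasureTheory Pool.Agent.H27.L1.H34.GM

noncomputable section

/-- the squared distance of `zᵀ z` to `1` -/
def SS {m : ℕ} (z : Mat m) : ℝ := ∑ i, ∑ j, ((z.transpose * z - 1) i j) ^ 2

theorem SS_nonneg {m : ℕ} (z : Mat m) : 0 ≤ SS z :=
  Finset.sum_nonneg fun _ _ => Finset.sum_nonneg fun _ _ => sq_nonneg _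

theorem bump_eq {m : ℕ} (χ : ℝ → ℝ) (δ : ℝ) (z : Mat m) :
    bump m χ δ z = ((χ (SS z / δ ^ 2) : ℝ) : ℂ) := rfl

theorem SS_cont {m : ℕ} : Continuous (fun z : Mat m => SS z) := by
  unfold SS
  refine continuous_finsetSum _ fun i _ => continuous_finsetSum _ fun j _ => ?_
  refine Continuous.pow ?_ 2
  have h1 : Continuous (fun z : Mat m => z.transpose * z - 1) :=
    ((continuous_id.matrix_transpose).mul continuous_id).sub continuous_const
  exact h1.matrix_elem i j

theorem SS_mt {m : ℕ} (z : V m) :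
    SS (mt z) = ∑ i, ∑ j, ((∑ k, z k i * z k j) - (1 : Mat m) i j) ^ 2 := by
  unfold SS
  refine Finset.sum_congr rfl fun i _ => Finset.sum_congr rfl fun j _ => ?_
  rw [Matrix.sub_apply, Matrix.mul_apply]
  rfl

theorem SS_contDiff {m : ℕ} : ContDiff ℝ ((⊤ : ℕ∞) : WithTop ℕ∞) (fun z : V m => SS (mt z)) := by
  have h : (fun z : V m => SS (mt z)) =
      fun z : V m => ∑ i, ∑ j, ((∑ k, z k i * z k j) - (1 : Mat m) i j) ^ 2 := by
    funext z
    exact SS_mt z
  rw [h]
  refine ContDiff.sum fun i _ => ContDiff.sum fun j _ => ?_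
  refine ContDiff.pow ?_ 2
  refine ContDiff.sub ?_ contDiff_const
  refine ContDiff.sum fun k _ => ?_
  exact (contDiff_apply_apply ℝ ℝ k i).mul (contDiff_apply_apply ℝ ℝ k j)

theorem SS_entry {m : ℕ} (z : Mat m) (h : SS z ≤ 1 / 4) (i j : Fin m) : |z i j| ≤ 2 := by
  have h1 : ((z.transpose * z - 1) j j) ^ 2 ≤ SS z := by
    unfold SS
    have e1 : ((z.transpose * z - 1) j j) ^ 2 ≤ ∑ j', ((z.transpose * z - 1) j j') ^ 2 :=
      Finset.single_le_sum (f := fun j' => ((z.transpose * z - 1) j j') ^ 2)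
        (fun _ _ => sq_nonneg _) (Finset.mem_univ j)
    have e2 : ∑ j', ((z.transpose * z - 1) j j') ^ 2 ≤
        ∑ i', ∑ j', ((z.transpose * z - 1) i' j') ^ 2 :=
      Finset.single_le_sum (f := fun i' => ∑ j', ((z.transpose * z - 1) i' j') ^ 2)
        (fun _ _ => Finset.sum_nonneg fun _ _ => sq_nonneg _) (Finset.mem_univ j)
    exact e1.trans e2
  have h2 : (z.transpose * z - 1) j j = (∑ k, z k j * z k j) - 1 := by
    rw [Matrix.sub_apply, Matrix.mul_apply, Matrix.one_apply_eq]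
    rfl
  rw [h2] at h1
  have h3 : z i j * z i j ≤ ∑ k, z k j * z k j :=
    Finset.single_le_sum (f := fun k => z k j * z k j) (fun _ _ => mul_self_nonneg _)
      (Finset.mem_univ i)
  have h4 : (∑ k, z k j * z k j) - 1 ≤ 1 / 2 := by nlinarith
  rw [abs_le]
  constructor <;> nlinarith

theorem SS_sz {m : ℕ} (z : Mat m) (h : SS z ≤ 1 / 4) : sz z ≤ 2 := by
  unfold sz
  rw [pi_norm_le_iff_of_nonneg (by norm_num)]
  intro i
  rw [pi_norm_le_iff_of_nonneg (by norm_num)]
  intro j
  rw [Real.norm_eq_abs]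
  exact SS_entry z h i j

theorem SS_det {m : ℕ} (z : Mat m) (h : SS z ≤ 1 / 4) : z.det ≠ 0 := by
  intro h0
  obtain ⟨v, hv, hzv⟩ := Matrix.exists_mulVec_eq_zero_iff.2 h0
  have h1 : (z.transpose * z - 1).mulVec v = -v := by
    rw [Matrix.sub_mulVec, ← Matrix.mulVec_mulVec, hzv, Matrix.mulVec_zero, Matrix.one_mulVec,
      zero_sub]
  have h2 : ∑ i, v i ^ 2 ≤ SS z * ∑ j, v j ^ 2 := by
    unfold SS
    rw [Finset.sum_mul]
    refine Finset.sum_le_sum fun i _ => ?_
    have e1 : v i ^ 2 = (∑ j, (z.transpose * z - 1) i j * v j) ^ 2 := by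
      have := congrFun h1 i
      have e2 : (z.transpose * z - 1).mulVec v i = ∑ j, (z.transpose * z - 1) i j * v j := rfl
      rw [← e2, this, Pi.neg_apply, neg_sq]
    rw [e1]
    exact Finset.sum_mul_sq_le_sq_mul_sq _ _ _
  have h3 : 0 < ∑ j, v j ^ 2 := by
    obtain ⟨j, hj⟩ : ∃ j, v j ≠ 0 := by
      by_contra hc
      push Not at hc
      exact hv (funext hc)
    exact lt_of_lt_of_le (by positivity : 0 < v j ^ 2)
      (Finset.single_le_sum (f := fun j => v j ^ 2) (fun _ _ => sq_nonneg _) (Finset.mem_univ j))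
  nlinarith

/-- the compact set which contains the supports -/
def KK (m : ℕ) : Set (V m) := {z | SS (mt z) ≤ 1 / 4}

theorem KK_compact (m : ℕ) : IsCompact (KK m) := by
  refine Metric.isCompact_of_isClosed_isBounded ?_ ?_
  · exact isClosed_le SS_contDiff.continuous continuous_const
  · refine (Metric.isBounded_closedBall (x := (0 : V m)) (r := 2)).subset ?_
    intro z hz
    rw [mem_closedBall_zero_iff]
    exact SS_sz (mt z) hz

theorem det_low (m : ℕ) : ∃ c : ℝ, 0 < c ∧ ∀ z : Mat m, SS z ≤ 1 / 4 → c ≤ |z.det| := by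
  have hne : (KK m).Nonempty := by
    refine ⟨fun i j => (1 : Mat m) i j, ?_⟩
    show SS (1 : Mat m) ≤ 1 / 4
    unfold SS
    rw [Matrix.transpose_one, one_mul, sub_self]
    simp
  have hcont : ContinuousOn (fun z : V m => |(mt z).det|) (KK m) := by
    refine Continuous.continuousOn ?_
    have h1 : Continuous (fun z : V m => (mt z)) := continuous_id
    exact (h1.matrix_det).abs
  obtain ⟨z0, hz0, hmin⟩ := (KK_compact m).exists_isMinOn hne hcont
  refine ⟨|(mt z0).det|, abs_pos.2 (SS_det _ hz0), fun z hz => ?_⟩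
  exact hmin (show (fun i j => z i j : V m) ∈ KK m from hz)

theorem sum_sq_trace {m : ℕ} (M : Mat m) : ∑ i, ∑ j, (M i j) ^ 2 = (M.transpose * M).trace := by
  unfold Matrix.trace
  rw [Finset.sum_comm]
  refine Finset.sum_congr rfl fun j _ => ?_
  rw [Matrix.diag_apply, Matrix.mul_apply]
  refine Finset.sum_congr rfl fun i _ => ?_
  rw [Matrix.transpose_apply]
  ring

theorem SS_left {m : ℕ} (u z : Mat m) (hu : u * u.transpose = 1) : SS (u * z) = SS z := by
  have h1 : u.transpose * u = 1 := mul_eq_one_comm.1 hu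
  have h2 : (u * z).transpose * (u * z) = z.transpose * z := by
    rw [Matrix.transpose_mul, Matrix.mul_assoc, ← Matrix.mul_assoc u.transpose, h1,
      Matrix.one_mul]
  unfold SS
  rw [h2]

theorem SS_right {m : ℕ} (u z : Mat m) (hu : u * u.transpose = 1) : SS (z * u) = SS z := by
  have h1 : u.transpose * u = 1 := mul_eq_one_comm.1 hu
  have h2 : (z * u).transpose * (z * u) - 1 =
      u.transpose * (z.transpose * z - 1) * u := by
    rw [Matrix.transpose_mul, Matrix.mul_sub, Matrix.sub_mul, Matrix.mul_one, h1]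
    simp only [Matrix.mul_assoc]
  unfold SS
  rw [h2]
  rw [sum_sq_trace, sum_sq_trace]
  set M := z.transpose * z - 1
  rw [Matrix.transpose_mul, Matrix.transpose_mul, Matrix.transpose_transpose]
  have h3 : u.transpose * (M.transpose * u) * (u.transpose * M * u) =
      u.transpose * (M.transpose * M * u) := by
    calc u.transpose * (M.transpose * u) * (u.transpose * M * u)
        = u.transpose * (M.transpose * (u * u.transpose) * M * u) := by
          simp only [Matrix.mul_assoc]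
      _ = u.transpose * (M.transpose * M * u) := by rw [hu, Matrix.mul_one]
  rw [h3, Matrix.trace_mul_comm, Matrix.mul_assoc, hu, Matrix.mul_one]

theorem bump_ne {m : ℕ} {χ : ℝ → ℝ} (hχ : Prof χ) {δ : ℝ} (hδ : 0 < δ) {z : Mat m}
    (h : bump m χ δ z ≠ 0) : SS z ≤ δ ^ 2 := by
  by_contra hc
  push Not at hc
  apply h
  rw [bump_eq, hχ.supp, Complex.ofReal_zero]
  have h2 : 0 < δ ^ 2 := by positivity
  rw [abs_of_nonneg (div_nonneg (SS_nonneg z) h2.le), le_div_iff₀ h2, one_mul]
  exact hc.le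

theorem bump_le {m : ℕ} {χ : ℝ → ℝ} (hχ : Prof χ) (δ : ℝ) (z : Mat m) :
    ‖bump m χ δ z‖ ≤ 1 := by
  rw [bump_eq, Complex.norm_real, Real.norm_of_nonneg (hχ.lo _)]
  exact hχ.hi _

theorem pf_BMP : T_BMP := by
  intro m χ hm hχ
  have hquart : ∀ δ : ℝ, 0 < δ → δ ≤ 1 / 2 → δ ^ 2 ≤ 1 / 4 := by
    intro δ h0 h1
    nlinarith
  refine ⟨fun δ hδ hδ' => ⟨?_, ?_, ?_, fun z => bump_le hχ δ z, fun z hz => bump_ne hχ hδ hz⟩, ?_⟩
  · obtain ⟨c, hc, hdet⟩ := det_low m
    refine ⟨?_, ?_, ?_, ?_⟩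
    · have h1 : Continuous (fun z : Mat m => χ (SS z / δ ^ 2)) :=
        hχ.smooth.continuous.comp (SS_cont.div_const _)
      exact Complex.continuous_ofReal.comp h1
    · refine ⟨max 2 c⁻¹, by positivity, fun z hz => ?_⟩
      have hS : SS z ≤ 1 / 4 := (bump_ne hχ hδ hz).trans (hquart δ hδ hδ')
      refine ⟨(SS_sz z hS).trans (le_max_left _ _), ?_⟩
      refine le_trans ?_ (hdet z hS)
      rw [inv_le_comm₀ (by positivity) hc]
      exact le_max_right _ _
    · intro u hu z
      rw [bump_eq, bump_eq, SS_left u z hu]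
    · intro u hu z
      rw [bump_eq, bump_eq, SS_right u z hu]
  · have h1 : ContDiff ℝ ((⊤ : ℕ∞) : WithTop ℕ∞) (fun z : V m => χ (SS (mt z) / δ ^ 2)) :=
      hχ.smooth.comp (SS_contDiff.div_const _)
    exact Complex.ofRealCLM.contDiff.comp h1
  · refine HasCompactSupport.intro (KK_compact m) fun z hz => ?_
    by_contra hc
    exact hz ((bump_ne hχ hδ hc).trans (hquart δ hδ hδ'))
  · intro N hN
    refine ⟨3 ^ N, by positivity, fun δ hδ hδ' z => ?_⟩
    have hsz0 : 0 ≤ sz z := norm_nonneg _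
    by_cases hz : bump m χ δ z = 0
    · rw [hz, norm_zero]
      positivity
    · have hS : SS z ≤ 1 / 4 := (bump_ne hχ hδ hz).trans (hquart δ hδ hδ')
      have h2 := SS_sz z hS
      refine (bump_le hχ δ z).trans ?_
      have h3 : (3 : ℝ) ^ (-N) ≤ (1 + sz z) ^ (-N) :=
        Real.rpow_le_rpow_of_nonpos (by linarith) (by linarith) (by linarith)
      calc (1 : ℝ) = 3 ^ N * 3 ^ (-N) := by
            rw [← Real.rpow_add (by norm_num), add_neg_cancel, Real.rpow_zero]
        _ ≤ 3 ^ N * (1 + sz z) ^ (-N) := by gcongr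

end

end Pool.Agent.H27.L1.H86.GMF
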